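import Pool.Agent.Y862.SQ.Main2

set_option autoImplicit false

/-!
# Almost primes around squares: independent Poisson processes on both sides

Call `m` good if it has at most `2 r` prime factors, all of them larger than `X ^ (1 / r)`, and let `V` be the
product of `1 - 1 / p` over the primes `p ≤ X ^ (1 / r)`, so that `V` has the order of magnitude `r / log X`.
We look at windows `((n + a) ^ 2 + c, (n + a) ^ 2 + c + L]` next to the squares `(n + a) ^ 2`, on both sides,
of length up to a constant times `log X`. Let `k` disjoint windows of this kind be given, around the same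
or around different squares, `a` up to a constant times `log X` (all uniform). Then, as `n` runs over
ANY interval `(Z, Z + Y]` inside `(X, 2 X]` with `Y ≥ X ^ θ`, the numbers of good integers in the `k` windows
are asymptotically independent Poisson variables with means `L V`: the total variation distance is at
most `ε` once `r ≥ r0(θ, k, x0, ε)` and `X` is large.
In particular, there are arbitrarily long runs of good integers and arbitrarily long gaps on either side
of `n ^ 2` (in the scale `log X`), independently of each other, for `n` in every interval of length `X ^ θ`.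

Proof. The joint binomial moments are averages of singular series of products of polynomials
`(n + a) ^ 2 + s`. The factor of one `s` is close to `L(1, χ) ^ (-1)`, `χ = (-s / .)`, and not bounded; in mean
square over `|s| ≤ M` it is close to one (Brun's sieve, an elementary large sieve, Siegel-Walfisz). The
values `-s` which are squares are removed. Two indices `(a, s)`, `(a', s')` collide at the primes dividing
their resultant, which is bounded on average.
Written with helpers 279, 779 (large sieve), 67, 436 (exceptional s), 756 (Brun), 286 (second moment), 722,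
848 (large primes), 117 (mean square), 954 (collisions), 420 (tail), 448, 681 (small primes), 872, 61
(average), 65, 486 (moments), 406 (joint Poisson law), 87, 810 (all windows).
-/

namespace Pool.Agent.Results.MP_bf4c7f_nt.PoissonAroundSquares

open Finset

/-- `m` has at most `2 r` prime factors (with multiplicity), all larger than `X ^ (1 / r)` -/
def Good (r X m : ℕ) : Prop :=
  m.primeFactorsList.length ≤ 2 * r ∧ ∀ p : ℕ, p.Prime → p ∣ m → (X : ℝ) ^ (1 / (r : ℝ)) < (p : ℝ)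

open Classical in
/-- the number of the good integers `m` with `(n + a) ^ 2 + c < m ≤ (n + a) ^ 2 + c + L` -/
noncomputable def N (r X n a : ℕ) (c : ℤ) (L : ℕ) : ℕ :=
  ((Ioc (((n : ℤ) + a) ^ 2 + c) (((n : ℤ) + a) ^ 2 + c + L)).filter (fun m => Good r X m.toNat)).card

/-- the product of `1 - 1 / p` over the primes `p ≤ X ^ (1 / r)` -/
noncomputable def V (r X : ℕ) : ℝ :=
  ∏ p ∈ (Icc 1 ⌊(X : ℝ) ^ (1 / (r : ℝ))⌋₊).filter Nat.Prime, (1 - 1 / (p : ℝ))

/-- `k` windows, the `j`-th being `(c j, c j + L j]` inside `[-M, M]`, attached to the square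
`(n + a j) ^ 2` with `a j ≤ M`; windows attached to the same square are disjoint -/
def Windows {k : ℕ} (M : ℕ) (a : Fin k → ℕ) (c : Fin k → ℤ) (L : Fin k → ℕ) : Prop :=
  (∀ j, a j ≤ M ∧ -(M : ℤ) ≤ c j ∧ c j + L j ≤ M) ∧
  ∀ i j, i ≠ j → a i = a j → c i + L i ≤ c j ∨ c j + L j ≤ c i

lemma length_le (z : ℝ) (hz : 0 < z) (L : List ℕ) (hL : ∀ p ∈ L, z ≤ (p : ℝ)) :
    z ^ L.length ≤ (L.prod : ℝ) := by
  induction L with
  | nil => simp
  | cons a l ih =>
    rw [List.length_cons, List.prod_cons, pow_succ, Nat.cast_mul]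
    have h1 := ih (fun p hp => hL p (List.mem_cons_of_mem _ hp))
    have h2 := hL a List.mem_cons_self
    have h3 : 0 < z ^ l.length := by positivity
    calc z ^ l.length * z ≤ (l.prod : ℝ) * a := by
          apply mul_le_mul h1 h2 hz.le (h3.le.trans h1)
      _ = _ := by ring

/-- good integers are the sifted ones -/
lemma good_iff (r X m : ℕ) (hr : 1 ≤ r) (hX : 1 ≤ X) (h5 : 5 < (X : ℝ) ^ (1 / (r : ℝ))) (hm : 1 ≤ m)
    (hmX : m ≤ 5 * X ^ 2) :
    Good r X m ↔ ∀ p ∈ Pool.Agent.Y862.SQ.pr ⌊(X : ℝ) ^ (1 / (r : ℝ))⌋₊, ¬ p ∣ m := by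
  have hz0 : 0 ≤ (X : ℝ) ^ (1 / (r : ℝ)) := by positivity
  constructor
  · rintro ⟨-, h2⟩ p hp hd
    rw [Pool.Agent.Y862.SQ.pr, mem_filter, mem_Icc] at hp
    have h3 := h2 p hp.2 hd
    have h4 : (p : ℝ) ≤ (X : ℝ) ^ (1 / (r : ℝ)) :=
      (Nat.le_floor_iff hz0).1 hp.1.2
    linarith
  · intro h
    have hbig : ∀ p : ℕ, p.Prime → p ∣ m → (X : ℝ) ^ (1 / (r : ℝ)) < (p : ℝ) := by
      intro p hp hd
      by_contra hcon
      push Not at hcon
      refine h p ?_ hd
      rw [Pool.Agent.Y862.SQ.pr, mem_filter, mem_Icc]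
      exact ⟨⟨hp.one_lt.le, Nat.le_floor hcon⟩, hp⟩
    refine ⟨?_, hbig⟩
    by_contra hcon
    push Not at hcon
    obtain ⟨z, hz⟩ : ∃ z : ℝ, z = (X : ℝ) ^ (1 / (r : ℝ)) := ⟨_, rfl⟩
    rw [← hz] at h5 hbig
    have h1 := length_le z (by linarith) m.primeFactorsList (fun p hp =>
      (hbig p (Nat.prime_of_mem_primeFactorsList hp) (Nat.dvd_of_mem_primeFactorsList hp)).le)
    rw [Nat.prod_primeFactorsList (by omega)] at h1
    have h2 : z ^ (2 * r + 1) ≤ (m : ℝ) := (pow_le_pow_right₀ (by linarith) (by omega)).trans h1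
    have h3 : z ^ r = X := by
      rw [hz, ← Real.rpow_natCast, ← Real.rpow_mul (Nat.cast_nonneg X), one_div,
        inv_mul_cancel₀ (by positivity), Real.rpow_one]
    have h4 : z ^ (2 * r + 1) = (X : ℝ) ^ 2 * z := by
      rw [pow_succ, mul_comm 2 r, pow_mul, h3]
    rw [h4] at h2
    have h6 : (m : ℝ) ≤ 5 * (X : ℝ) ^ 2 := by exact_mod_cast hmX
    have h7 : (1 : ℝ) ≤ (X : ℝ) ^ 2 := by
      have : (1 : ℝ) ≤ X := by exact_mod_cast hX
      nlinarith
    nlinarith

/-- the numbers of the good integers are the numbers of the sifted shifts -/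
lemma N_eq (r X n a : ℕ) (c : ℤ) (L : ℕ) (hr : 1 ≤ r) (hX : 1 ≤ X)
    (h5 : 5 < (X : ℝ) ^ (1 / (r : ℝ))) (h1 : 0 ≤ ((n : ℤ) + a) ^ 2 + c)
    (h2 : ((n : ℤ) + a) ^ 2 + c + L ≤ 5 * X ^ 2) :
    N r X n a c L = Pool.Agent.Y862.SQ.Nk ⌊(X : ℝ) ^ (1 / (r : ℝ))⌋₊ a c L n := by
  classical
  unfold N Pool.Agent.Y862.SQ.Nk
  obtain ⟨q, hq⟩ : ∃ q : ℤ, q = ((n : ℤ) + a) ^ 2 := ⟨_, rfl⟩
  rw [← hq] at h1 h2 ⊢
  have key : ∀ s ∈ Ioc c (c + L), (Good r X (q + s).toNat ↔
      ∀ p ∈ Pool.Agent.Y862.SQ.pr ⌊(X : ℝ) ^ (1 / (r : ℝ))⌋₊, ¬ (p : ℤ) ∣ q + s) := by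
    intro s hs
    rw [mem_Ioc] at hs
    have e : (((q + s).toNat : ℕ) : ℤ) = q + s := Int.toNat_of_nonneg (by omega)
    have hle : (q + s).toNat ≤ 5 * X ^ 2 := by
      have : (((q + s).toNat : ℕ) : ℤ) ≤ ((5 * X ^ 2 : ℕ) : ℤ) := by
        rw [e]
        push_cast
        omega
      exact_mod_cast this
    rw [good_iff r X (q + s).toNat hr hX h5 (by omega) hle]
    constructor
    · intro h p hp hd
      refine h p hp ?_
      rw [← e] at hd
      exact_mod_cast hd
    · intro h p hp hd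
      refine h p hp ?_
      rw [← e]
      exact_mod_cast hd
  symm
  apply Finset.card_bij (fun s _ => q + s)
  · intro s hs
    rw [mem_filter] at hs
    rw [mem_filter]
    refine ⟨?_, (key s hs.1).2 hs.2⟩
    have := mem_Ioc.1 hs.1
    rw [mem_Ioc]
    omega
  · intro x _ y _ hxy
    omega
  · intro m hm
    rw [mem_filter, mem_Ioc] at hm
    refine ⟨m - q, ?_, by omega⟩
    have hmem : m - q ∈ Ioc c (c + L) := by
      rw [mem_Ioc]
      omega
    rw [mem_filter]
    refine ⟨hmem, (key _ hmem).1 ?_⟩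
    have h3 : q + (m - q) = m := by ring
    rw [h3]
    exact hm.2

open Classical in
/-- **Almost primes around squares are distributed like independent Poisson processes.** -/
theorem result (k : ℕ) (θ : ℝ) (hθ : 0 < θ) (x0 ε : ℝ) (hε : 0 < ε) :
    ∃ r0 : ℕ, ∀ r : ℕ, r0 ≤ r → ∃ X0 : ℕ, ∀ X : ℕ, X0 ≤ X → ∀ Z Y : ℕ, X ≤ Z → Z + Y ≤ 2 * X →
      (X : ℝ) ^ θ ≤ Y → ∀ M : ℕ, M * V r X ≤ x0 →
      ∀ (a : Fin k → ℕ) (c : Fin k → ℤ) (L : Fin k → ℕ), Windows M a c L →
      ∀ A : Finset (Fin k → ℕ),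
        |(((Ioc Z (Z + Y)).filter (fun n => (fun j => N r X n (a j) (c j) (L j)) ∈ A)).card : ℝ) -
          Y * ∑ v ∈ A, ∏ j, (Real.exp (-(L j * V r X)) * (L j * V r X) ^ v j / (v j).factorial)| ≤
          ε * Y := by
  obtain ⟨r0, h0⟩ := Pool.Agent.Y862.SQ.t_LAWK k θ hθ x0 ε hε
  obtain ⟨c', C, hc, hC, hV⟩ := Pool.Agent.Y810.SQ.V1_bounds
  refine ⟨r0 + 1, ?_⟩
  intro r hr
  obtain ⟨X1, h1⟩ := h0 r (by omega)
  have hr1 : 1 ≤ r := by omega
  have hrr : (1 : ℝ) ≤ r := by exact_mod_cast hr1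
  have hrpos : (0 : ℝ) < r := by linarith
  have hpow : Filter.Tendsto (fun X : ℕ => (X : ℝ) ^ (1 / (r : ℝ))) Filter.atTop Filter.atTop :=
    (tendsto_rpow_atTop (by positivity)).comp tendsto_natCast_atTop_atTop
  have hlog : Filter.Tendsto (fun X : ℕ => Real.log (X : ℝ) / (X : ℝ)) Filter.atTop (nhds 0) := by
    have h2 : Filter.Tendsto (fun x : ℝ => Real.log x / x) Filter.atTop (nhds 0) := by
      simpa using Real.tendsto_pow_log_div_mul_add_atTop 1 0 1 one_ne_zero
    exact h2.comp tendsto_natCast_atTop_atTop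
  have hδ : (0 : ℝ) < c' / (5 * (|x0| + 1)) := by positivity
  have hev : ∀ᶠ X : ℕ in Filter.atTop, (6 : ℝ) < (X : ℝ) ^ (1 / (r : ℝ)) ∧
      Real.log (X : ℝ) / X < c' / (5 * (|x0| + 1)) ∧ 4 ≤ X ∧ X1 ≤ X :=
    (hpow.eventually_gt_atTop _).and ((hlog.eventually_lt_const hδ).and
      ((Filter.eventually_ge_atTop 4).and (Filter.eventually_ge_atTop X1)))
  obtain ⟨X0, hX0⟩ := Filter.eventually_atTop.1 hev
  refine ⟨X0, ?_⟩
  intro X hX Z Y hXZ hZY hXY M hM a c L hW A
  obtain ⟨g1, g2, g3, g4⟩ := hX0 X hX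
  have hX1 : (1 : ℝ) ≤ X := by exact_mod_cast (by omega : 1 ≤ X)
  have hXpos : (0 : ℝ) < X := by linarith
  obtain ⟨y, hy⟩ : ∃ y : ℕ, y = ⌊(X : ℝ) ^ (1 / (r : ℝ))⌋₊ := ⟨_, rfl⟩
  have hVeq : V r X = Pool.Agent.Y862.SQ.V1 y := by
    rw [hy]
    rfl
  have hmain := h1 X g4 Z Y hXY M (by rw [← hy, ← hVeq]; exact hM) a c L hW A
  rw [← hy, ← hVeq] at hmain
  have hy5 : 5 ≤ y := by
    rw [hy]
    apply Nat.le_floor
    push_cast
    linarith
  have hyX : (y : ℝ) ≤ X := by
    rw [hy]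
    refine (Nat.floor_le (by positivity)).trans ?_
    calc (X : ℝ) ^ (1 / (r : ℝ)) ≤ (X : ℝ) ^ (1 : ℝ) := by
          apply Real.rpow_le_rpow_of_exponent_le hX1
          rw [div_le_one hrpos]
          exact hrr
      _ = X := Real.rpow_one _
  have hyr : (1 : ℝ) < y := by exact_mod_cast (by omega : 1 < y)
  have hlogy : 0 < Real.log y := Real.log_pos hyr
  -- the windows are short
  have hM5 : 5 * (M : ℝ) ≤ X := by
    have h2 := (hV y (by omega)).1
    rw [← hVeq] at h2
    have h3 : (M : ℝ) * (c' / Real.log y) ≤ |x0| :=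
      ((mul_le_mul_of_nonneg_left h2 (Nat.cast_nonneg M)).trans hM).trans (le_abs_self x0)
    have h4 : (M : ℝ) * c' ≤ |x0| * Real.log y := by
      have h5 := mul_le_mul_of_nonneg_right h3 hlogy.le
      have h6 : (M : ℝ) * (c' / Real.log y) * Real.log y = M * c' := by
        field_simp
      linarith
    have h5 : Real.log y ≤ Real.log X := Real.log_le_log (by linarith) hyX
    have h6 : Real.log (X : ℝ) * (5 * (|x0| + 1)) < c' * X := by
      rw [div_lt_div_iff₀ hXpos (by positivity)] at g2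
      exact g2
    have h7 : 0 ≤ |x0| := abs_nonneg x0
    have h8 : |x0| * Real.log y ≤ |x0| * Real.log X := mul_le_mul_of_nonneg_left h5 h7
    have h9 : 0 < Real.log (X : ℝ) := hlogy.trans_le h5
    have h10 : 5 * (M : ℝ) * c' ≤ X * c' := by nlinarith
    exact le_of_mul_le_mul_right h10 hc
  have hM5' : 5 * M ≤ X := by exact_mod_cast hM5
  have hfilt : (Ioc Z (Z + Y)).filter (fun n => (fun j => N r X n (a j) (c j) (L j)) ∈ A) =
      (Ioc Z (Z + Y)).filter
        (fun n => (fun j => Pool.Agent.Y862.SQ.Nk y (a j) (c j) (L j) n) ∈ A) := by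
    apply Finset.filter_congr
    intro n hn
    rw [mem_Ioc] at hn
    have heq : (fun j => N r X n (a j) (c j) (L j)) =
        (fun j => Pool.Agent.Y862.SQ.Nk y (a j) (c j) (L j) n) := by
      funext j
      obtain ⟨w1, w2, w3⟩ := hW.1 j
      rw [hy]
      have hn1 : (X : ℤ) + 1 ≤ (n : ℤ) := by exact_mod_cast (by omega : X + 1 ≤ n)
      have hn2 : (n : ℤ) ≤ 2 * (X : ℤ) := by exact_mod_cast (by omega : n ≤ 2 * X)
      have ha : (a j : ℤ) ≤ (M : ℤ) := by exact_mod_cast w1
      have ha0 : (0 : ℤ) ≤ (a j : ℤ) := Int.natCast_nonneg _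
      have hMX : 5 * (M : ℤ) ≤ (X : ℤ) := by exact_mod_cast hM5'
      have hM0 : (0 : ℤ) ≤ (M : ℤ) := Int.natCast_nonneg _
      have hX4 : (4 : ℤ) ≤ (X : ℤ) := by exact_mod_cast g3
      apply N_eq r X n (a j) (c j) (L j) hr1 (by omega) (by linarith)
      · nlinarith
      · have h2 : ((n : ℤ) + a j) ≤ 2 * X + M := by linarith
        have h3 : ((n : ℤ) + a j) ^ 2 ≤ (2 * X + M) ^ 2 := by
          apply pow_le_pow_left₀ (by linarith) h2
        nlinarith
    rw [heq]
  rw [hfilt]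
  exact hmain

end Pool.Agent.Results.MP_bf4c7f_nt.PoissonAroundSquares
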