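import Pool.Agent.Y816.PD.UniK

set_option autoImplicit false

/-!
# Almost primes `x ^ 2 - j` and `x ^ 2 + j`, `0 < j < x`, with restricted digits of the distance `j`

For every large `x` the `j` with `0 < j < x` whose `i`-th digit in base `b` belongs to an arbitrary set `A i` for
all `i < K` are considered; `K` is the integer part of `log_b x`.
-/

namespace Pool.Agent.Results.MP_bf4c7f_nt.RestrictedDigits

open Finset Filter Polynomial
open Pool.Agent.Y816.PD (ND NA Alm WG)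

/-- `(x ^ 2 - j) (x ^ 2 + j)` -/
def G (x j : ℕ) : ℤ := ((x : ℤ) ^ 2 - j) * ((x : ℤ) ^ 2 + j)

/-- **Almost primes in both Oppermann intervals, symmetric with respect to the square, with restricted digits of the
distance.** -/
theorem result :
    ∃ c : ℝ, 0 < c ∧ ∃ r₀ : ℕ, 2 ≤ r₀ ∧ ∀ r : ℕ, r₀ ≤ r → ∀ b : ℕ, 2 ≤ b → ∃ κ C : ℝ, 0 < κ ∧ 0 < C ∧
      ∀ᶠ x : ℕ in atTop, ∀ K : ℕ, K = Nat.log b x →
        ∀ A : ℕ → Finset ℕ, (∀ i < K, A i ⊆ range b) → (b : ℝ) ^ K ≤ Real.exp (c * K) * NA K A →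
        ((∃ d ∈ A 0, (G x d).natAbs.Coprime b) → (∃ d ∈ A (K - 1), d ≠ 0) →
          κ * NA K A * WG (G x) (b ^ K) ≤
            ND b K A {j | (x ^ 2 - x < x ^ 2 - j ∧ x ^ 2 - j < x ^ 2 ∧ x ^ 2 < x ^ 2 + j ∧
              x ^ 2 + j < x ^ 2 + x) ∧ j ∈ Alm (G x) r (b ^ K)}) ∧
        (ND b K A {j | (x ^ 2 - j).Prime ∧ (x ^ 2 + j).Prime} : ℝ) ≤ C * NA K A * WG (G x) (b ^ K) := by
  obtain ⟨c, hc, r₀, hr₀, h⟩ := Pool.Agent.Y816.PD.uni_top 2 8 (by norm_num)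
  refine ⟨c, hc, r₀, hr₀, fun r hr b hb => ?_⟩
  have h2r : 2 ≤ r := hr₀.trans hr
  obtain ⟨κ, C₁, hκ, hC, h1⟩ := h r hr b hb
  refine ⟨κ, C₁, hκ, hC, ?_⟩
  obtain ⟨K0, hK0⟩ := eventually_atTop.1 h1
  filter_upwards [eventually_ge_atTop (b ^ (K0 + 4))] with x hx K hK A hA hprod
  have hb0 : 0 < b := by omega
  have hx1 : 1 ≤ x := le_trans (Nat.one_le_pow _ _ hb0) hx
  have hKK : K0 + 4 ≤ K := by
    rw [hK]
    exact Nat.le_log_of_pow_le (by omega) hx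
  have hb1 : b ^ K ≤ x := by
    rw [hK]
    exact Nat.pow_log_le_self b (by omega)
  have hb2 : x < b ^ (K + 1) := by
    rw [hK]
    exact Nat.lt_pow_succ_log_self (by omega) _
  have hxx : x ≤ x ^ 2 := Nat.le_self_pow (by norm_num) x
  have hG : ∀ j : ℕ, j ≤ x ^ 2 → G x j = (((x ^ 2 - j) * (x ^ 2 + j) : ℕ) : ℤ) := by
    intro j hj
    unfold G
    push_cast [Nat.cast_sub hj]
    ring
  have hpoly : ∃ P : ℤ[X], P.natDegree ≤ 2 ∧ ∀ k : ℕ, P.eval (k : ℤ) = G x k := by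
    refine ⟨(C ((x : ℤ) ^ 2) - X) * (C ((x : ℤ) ^ 2) + X), ?_, fun k => ?_⟩
    · compute_degree
    · unfold G
      simp only [eval_mul, eval_add, eval_sub, eval_X, eval_C]
  have hadm : ∀ p : ℕ, p.Prime → ∃ k : ℕ, ¬ (p : ℤ) ∣ G x k := by
    intro p hp
    by_cases hpx : p ∣ x
    · refine ⟨1, fun hd => ?_⟩
      rw [hG 1 (by omega), Int.natCast_dvd_natCast] at hd
      have h2 : p ∣ x ^ 2 := hpx.trans (Dvd.intro_left (x ^ 1) (by ring))
      rcases (Nat.Prime.dvd_mul hp).1 hd with h3 | h3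
      · have h4 : p ∣ x ^ 2 - (x ^ 2 - 1) := Nat.dvd_sub h2 h3
        have h5 : x ^ 2 - (x ^ 2 - 1) = 1 := by omega
        rw [h5] at h4
        exact hp.one_lt.ne' (Nat.dvd_one.1 h4)
      · exact hp.one_lt.ne' (Nat.dvd_one.1 ((Nat.dvd_add_right h2).1 h3))
    · refine ⟨0, fun hd => ?_⟩
      rw [hG 0 (by omega), Int.natCast_dvd_natCast, Nat.sub_zero, Nat.add_zero] at hd
      rcases (Nat.Prime.dvd_mul hp).1 hd with h3 | h3
      · exact hpx (hp.dvd_of_dvd_pow h3)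
      · exact hpx (hp.dvd_of_dvd_pow h3)
  have hsize : ∀ k : ℕ, k < b ^ K → (G x k).natAbs ≤ b ^ (8 * K) := by
    intro k hk
    rw [hG k (by omega), Int.natAbs_natCast]
    have e1 : x ^ 2 ≤ b ^ (K + 1) * b ^ (K + 1) := by
      rw [sq]
      exact Nat.mul_le_mul hb2.le hb2.le
    calc (x ^ 2 - k) * (x ^ 2 + k) ≤ (x ^ 2 + k) * (x ^ 2 + k) := Nat.mul_le_mul_right _ (by omega)
      _ ≤ (b * x ^ 2) * (b * x ^ 2) := by
          have : x ^ 2 + k ≤ b * x ^ 2 := by nlinarith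
          exact Nat.mul_le_mul this this
      _ ≤ (b * (b ^ (K + 1) * b ^ (K + 1))) * (b * (b ^ (K + 1) * b ^ (K + 1))) :=
          Nat.mul_le_mul (Nat.mul_le_mul_left _ e1) (Nat.mul_le_mul_left _ e1)
      _ = b ^ (4 * K + 6) := by ring
      _ ≤ b ^ (8 * K) := Nat.pow_le_pow_right hb0 (by omega)
  obtain ⟨h2, h3⟩ := hK0 K (by omega) (G x) hpoly hadm hsize A hA hprod
  constructor
  · intro hd htop
    refine (h2 hd htop).trans (Nat.cast_le.2 ?_)
    apply Pool.Agent.Y816.PD.ND_mono'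
    intro j hj hjS
    have h4 : 0 < b ^ (K - 1) := by positivity
    have h5 := hjS.1
    exact ⟨⟨by omega, by omega, by omega, by omega⟩, hjS.2⟩
  · refine le_trans (Nat.cast_le.2 ?_) h3
    apply Pool.Agent.Y816.PD.ND_mono'
    intro j hj hjS p hp hd
    obtain ⟨g1, g2⟩ := hjS
    refine Pool.Agent.Y816.PD.lt_pow_of_le hp ?_ h2r
    rw [hG j (by omega), Int.natCast_dvd_natCast] at hd
    rcases (Nat.Prime.dvd_mul hp).1 hd with h4 | h4
    · rw [(Nat.prime_dvd_prime_iff_eq hp g1).1 h4]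
      have h6 : 2 * j ≤ x ^ 2 ∨ x ≤ 2 := by
        rcases Nat.lt_or_ge 2 x with h7 | h7
        · left; nlinarith
        · right; exact h7
      rcases h6 with h6 | h6
      · omega
      · have h7 : 2 ^ 4 ≤ x := by
          calc 2 ^ 4 ≤ b ^ 4 := Nat.pow_le_pow_left hb 4
            _ ≤ b ^ (K0 + 4) := Nat.pow_le_pow_right hb0 (by omega)
            _ ≤ x := hx
        omega
    · rw [(Nat.prime_dvd_prime_iff_eq hp g2).1 h4]
      omega

end Pool.Agent.Results.MP_bf4c7f_nt.RestrictedDigits
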