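import Pool.Agent.Y987.SZ.FormsN

set_option autoImplicit false

/-!
# Almost primes at the same distance on both sides of many squares
-/

namespace Pool.Agent.Results.MP_bf4c7f_nt.SymmetricAroundSquares

/-- The common distances for the numbers `x 1, …, x r`: the `m`, `0 < m < N`, for which none of the
numbers `(x i)² + m`, `(x i)² - m` has a prime factor `≤ (N - 1) ^ κ`. -/
def Common {r : ℕ} (N : ℕ) (x : Fin r → ℕ) (κ : ℝ) : Set ℕ :=
  {m | 0 < m ∧ m < N ∧
    ∀ i, ∀ p : ℕ, p.Prime → (p ∣ x i ^ 2 + m ∨ p ∣ x i ^ 2 - m) → ((N - 1 : ℕ) : ℝ) ^ κ < p}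

/-- `m` is a term of a progression of `t` terms of `S` with a difference `d`, `1 ≤ d ≤ L`. -/
def InProgression (t : ℕ) (L : ℝ) (S : Set ℕ) (m : ℕ) : Prop :=
  ∃ a d : ℕ, 1 ≤ d ∧ (d : ℝ) ≤ L ∧ (∀ j < t, a + j * d ∈ S) ∧ ∃ j < t, m = a + j * d

open Finset Filter
open Pool.Agent.Y987.SZ

/-- the forms: `x i ^ 2 + m` for the even, `x i ^ 2 - m` for the odd indices -/
def sg (r : ℕ) (i : Fin (2 * r)) : ℤ := if (i : ℕ) % 2 = 0 then 1 else -1

/-- the constant terms -/
def ct {r : ℕ} (x : Fin r → ℕ) (i : Fin (2 * r)) : ℤ := ((x ⟨(i : ℕ) / 2, by omega⟩ ^ 2 : ℕ) : ℤ)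

lemma sg_signs (r : ℕ) : Signs (sg r) := by
  intro i
  unfold sg
  split_ifs
  · exact Or.inl rfl
  · exact Or.inr rfl

/-- numbers which are congruent modulo `(2 r)!` -/
lemma adm_sym {r : ℕ} (x : Fin r → ℕ) (hx : ∀ i j, x i ≡ x j [MOD (2 * r).factorial]) :
    AdmF (sg r) (ct x) := by
  intro p hp
  haveI : Fact p.Prime := ⟨hp⟩
  by_cases hr : r = 0
  · refine ⟨0, ?_⟩
    intro i
    have := i.2
    omega
  by_cases hpr : p ≤ 2 * r
  · -- all `x i` are congruent modulo `p`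
    have hdvd : p ∣ (2 * r).factorial := (Nat.Prime.dvd_factorial hp).2 hpr
    set x0 := x ⟨0, by omega⟩ with hx0
    have hcong : ∀ i, ((x i : ℕ) : ZMod p) = (x0 : ZMod p) := by
      intro i
      have h1 := (hx i ⟨0, by omega⟩).of_dvd hdvd
      exact (ZMod.natCast_eq_natCast_iff _ _ p).2 h1
    -- a class `n` with `n ≠ ± x0 ^ 2`
    have hn : ∃ n : ZMod p, n + (x0 : ZMod p) ^ 2 ≠ 0 ∧ -n + (x0 : ZMod p) ^ 2 ≠ 0 := by
      by_cases h0 : (x0 : ZMod p) = 0
      · refine ⟨1, ?_, ?_⟩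
        · rw [h0]
          simp
        · rw [h0]
          simp
      · refine ⟨0, ?_, ?_⟩
        · simpa using h0
        · simpa using h0
    obtain ⟨n, hn1, hn2⟩ := hn
    refine ⟨n.val, ?_⟩
    intro i hd
    have h3 := (ZMod.intCast_zmod_eq_zero_iff_dvd _ p).2 hd
    unfold sg ct at h3
    split_ifs at h3
    · push_cast at h3
      rw [ZMod.natCast_zmod_val, hcong] at h3
      apply hn1
      linear_combination h3
    · push_cast at h3
      rw [ZMod.natCast_zmod_val, hcong] at h3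
      apply hn2
      linear_combination h3
  · -- more classes than forms
    have h1 : ((univ : Finset (Fin (2 * r))).image (fun i => -((sg r i : ℤ) : ZMod p) *
        ((ct x i : ℤ) : ZMod p))).card < (univ : Finset (ZMod p)).card := by
      refine lt_of_le_of_lt card_image_le ?_
      rw [card_univ, card_univ, ZMod.card, Fintype.card_fin]
      omega
    obtain ⟨n, -, hn⟩ := exists_mem_notMem_of_card_lt_card h1
    refine ⟨n.val, ?_⟩
    intro i hd
    apply hn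
    rw [mem_image]
    refine ⟨i, mem_univ _, ?_⟩
    have h3 := (ZMod.intCast_zmod_eq_zero_iff_dvd _ p).2 hd
    push_cast at h3
    rw [ZMod.natCast_zmod_val] at h3
    rcases sg_signs r i with h | h
    · rw [h] at h3 ⊢
      push_cast at h3 ⊢
      linear_combination -h3
    · rw [h] at h3 ⊢
      push_cast at h3 ⊢
      linear_combination h3

lemma common_eq {r : ℕ} (N : ℕ) (x : Fin r → ℕ) (κ : ℝ) (hN : 1 ≤ N) (hx : ∀ i, N ≤ x i) :
    Common N x κ = RS (sg r) (ct x) (N - 1) (((N - 1 : ℕ) : ℝ) ^ κ) := by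
  ext m
  have hle : m < N → ∀ i, m ≤ x i ^ 2 := by
    intro hm i
    have := hx i
    nlinarith
  have hplus : ∀ i : Fin (2 * r), (i : ℕ) % 2 = 0 → ∀ p : ℕ,
      ((p : ℤ) ∣ sg r i * (m : ℤ) + ct x i ↔ p ∣ x ⟨(i : ℕ) / 2, by omega⟩ ^ 2 + m) := by
    intro i hi p
    have : (sg r i * (m : ℤ) + ct x i) = ((x ⟨(i : ℕ) / 2, by omega⟩ ^ 2 + m : ℕ) : ℤ) := by
      unfold sg ct
      rw [if_pos hi, Nat.cast_add]
      ring
    rw [this]
    exact Int.natCast_dvd_natCast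
  have hminus : m < N → ∀ i : Fin (2 * r), ¬ (i : ℕ) % 2 = 0 → ∀ p : ℕ,
      ((p : ℤ) ∣ sg r i * (m : ℤ) + ct x i ↔ p ∣ x ⟨(i : ℕ) / 2, by omega⟩ ^ 2 - m) := by
    intro hm i hi p
    have : (sg r i * (m : ℤ) + ct x i) = ((x ⟨(i : ℕ) / 2, by omega⟩ ^ 2 - m : ℕ) : ℤ) := by
      unfold sg ct
      rw [if_neg hi, Nat.cast_sub (hle hm _)]
      ring
    rw [this]
    exact Int.natCast_dvd_natCast
  constructor
  · rintro ⟨h1, h2, h3⟩
    refine ⟨h1, by omega, ?_⟩
    intro p hp hpy i hd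
    by_cases hi : (i : ℕ) % 2 = 0
    · have := h3 _ p hp (Or.inl ((hplus i hi p).1 hd))
      linarith
    · have := h3 _ p hp (Or.inr ((hminus h2 i hi p).1 hd))
      linarith
  · rintro ⟨h1, h2, h3⟩
    refine ⟨h1, by omega, ?_⟩
    intro i p hp hd
    by_contra hcon
    push Not at hcon
    rcases hd with hd | hd
    · have hi : ((⟨2 * (i : ℕ), by omega⟩ : Fin (2 * r)) : ℕ) % 2 = 0 := by
        show (2 * (i : ℕ)) % 2 = 0
        omega
      apply h3 p hp hcon ⟨2 * (i : ℕ), by omega⟩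
      rw [hplus _ hi]
      have : (⟨((⟨2 * (i : ℕ), by omega⟩ : Fin (2 * r)) : ℕ) / 2, by omega⟩ : Fin r) = i := by
        apply Fin.ext
        show 2 * (i : ℕ) / 2 = i
        omega
      rw [this]
      exact hd
    · have hi : ¬ ((⟨2 * (i : ℕ) + 1, by omega⟩ : Fin (2 * r)) : ℕ) % 2 = 0 := by
        show ¬ (2 * (i : ℕ) + 1) % 2 = 0
        omega
      apply h3 p hp hcon ⟨2 * (i : ℕ) + 1, by omega⟩
      rw [hminus (by omega) _ hi]
      have : (⟨((⟨2 * (i : ℕ) + 1, by omega⟩ : Fin (2 * r)) : ℕ) / 2, by omega⟩ : Fin r) = i := by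
        apply Fin.ext
        show (2 * (i : ℕ) + 1) / 2 = i
        omega
      rw [this]
      exact hd

/-- **Almost primes at the same distance on both sides of many squares.** -/
theorem result (r : ℕ) : ∃ κ c : ℝ, 0 < κ ∧ 0 < c ∧ ∀ C : ℕ, ∃ R : ℕ, ∀ (t : ℕ) (ε : ℝ), 0 < ε →
    ∃ B N₀ : ℕ, ∀ N : ℕ, N₀ ≤ N → ∀ x : Fin r → ℕ, (∀ i, N ≤ x i ∧ x i ≤ N ^ C) →
      (∀ i j, x i ≡ x j [MOD (2 * r).factorial]) →
      c * (N / Real.log N ^ (2 * r)) ≤ ((Common N x κ).ncard : ℝ) ∧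
      (∀ m ∈ Common N x κ, ∀ i,
        (x i ^ 2 - x i < x i ^ 2 - m ∧ x i ^ 2 - m < x i ^ 2 ∧
          (x i ^ 2 - m).primeFactorsList.length ≤ R) ∧
        (x i ^ 2 < x i ^ 2 + m ∧ x i ^ 2 + m < x i ^ 2 + x i ∧
          (x i ^ 2 + m).primeFactorsList.length ≤ R)) ∧
      ∀ S ⊆ Common N x κ,
        ({m ∈ S | ¬ InProgression (t + 1) (Real.log N ^ B) S m}.ncard : ℝ) ≤
          ε * ((Common N x κ).ncard : ℝ) := by
  obtain ⟨κ, c, hκ0, hκ1, hc, h⟩ := formsN (2 * r)
  refine ⟨κ, c / 2, hκ0, by positivity, ?_⟩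
  intro C
  obtain ⟨R, hR⟩ := exists_nat_gt ((4 * C + 4) / κ)
  refine ⟨R, ?_⟩
  intro t ε hε
  obtain ⟨B, N₀, h1⟩ := h t ε hε
  refine ⟨B, max (N₀ + 1) 8, ?_⟩
  intro N hN x hx hxx
  have hN8 : 8 ≤ N := (le_max_right _ _).trans hN
  have hNN : N₀ + 1 ≤ N := (le_max_left _ _).trans hN
  have hNr : (8 : ℝ) ≤ N := by exact_mod_cast hN8
  have h2 := h1 (N - 1) (N - 1) (by omega) le_rfl (by
      calc N - 1 = (N - 1) ^ 1 := (pow_one _).symm
        _ ≤ (N - 1) ^ 2 := Nat.pow_le_pow_right (by omega) (by norm_num))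
    (sg r) (ct x) (sg_signs r) (adm_sym x hxx)
  rw [← common_eq N x κ (by omega) (fun i => (hx i).1)] at h2
  have hcast : ((N - 1 : ℕ) : ℝ) = (N : ℝ) - 1 := by
    rw [Nat.cast_sub (by omega)]
    norm_num
  have hlog : 0 < Real.log ((N - 1 : ℕ) : ℝ) := by
    apply Real.log_pos
    rw [hcast]
    linarith
  have hlogle : Real.log ((N - 1 : ℕ) : ℝ) ≤ Real.log N := by
    apply Real.log_le_log
    · rw [hcast]
      linarith
    · rw [hcast]
      linarith
  refine ⟨?_, ?_, ?_⟩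
  · refine le_trans ?_ h2.1
    calc c / 2 * (N / Real.log N ^ (2 * r)) = c * ((N / 2) / Real.log N ^ (2 * r)) := by ring
      _ ≤ c * (((N - 1 : ℕ) : ℝ) / Real.log ((N - 1 : ℕ) : ℝ) ^ (2 * r)) := by
          apply mul_le_mul_of_nonneg_left _ hc.le
          apply div_le_div₀
          · rw [hcast]
            linarith
          · rw [hcast]
            linarith
          · positivity
          · exact pow_le_pow_left₀ hlog.le hlogle _
  · intro m hm i
    have hm1 := hm.1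
    have hm2 := hm.2.1
    have hxi := (hx i).1
    have hxx2 : x i ≤ x i ^ 2 := by nlinarith
    have hX1 : (1 : ℝ) ≤ ((N - 1 : ℕ) : ℝ) := by
      rw [hcast]
      linarith
    have hpow : ∀ n : ℕ, n ≤ x i ^ 2 + x i → (n : ℝ) < (((N - 1 : ℕ) : ℝ) ^ κ) ^ (R + 1) := by
      intro n hn
      have h6 : x i ^ 2 + x i < N ^ (2 * C + 1) := by
        have h7 := (hx i).2
        have h8 : x i ^ 2 + x i ≤ 2 * x i ^ 2 := by omega
        calc x i ^ 2 + x i ≤ 2 * x i ^ 2 := h8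
          _ ≤ 2 * (N ^ C) ^ 2 := by
              have := Nat.pow_le_pow_left h7 2
              omega
          _ < N * (N ^ C) ^ 2 := by
              apply Nat.mul_lt_mul_of_pos_right (by omega)
              positivity
          _ = N ^ (2 * C + 1) := by ring
      have h9 : (n : ℝ) < (N : ℝ) ^ (2 * C + 1) := by
        have : n < N ^ (2 * C + 1) := by omega
        exact_mod_cast this
      refine h9.trans ?_
      -- `N ≤ (N - 1) ^ 2`
      have h10 : (N : ℝ) ≤ ((N - 1 : ℕ) : ℝ) ^ 2 := by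
        rw [hcast]
        nlinarith
      rw [← Real.rpow_natCast (((N - 1 : ℕ) : ℝ) ^ κ), ← Real.rpow_mul (by linarith)]
      calc (N : ℝ) ^ (2 * C + 1) ≤ (((N - 1 : ℕ) : ℝ) ^ 2) ^ (2 * C + 1) :=
            pow_le_pow_left₀ (by linarith) h10 _
        _ = ((N - 1 : ℕ) : ℝ) ^ ((4 * C + 2 : ℕ) : ℝ) := by
            rw [Real.rpow_natCast, ← pow_mul]
            congr 1
            ring
        _ < ((N - 1 : ℕ) : ℝ) ^ (κ * ((R + 1 : ℕ) : ℝ)) := by
            apply Real.rpow_lt_rpow_of_exponent_lt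
            · rw [hcast]
              linarith
            · rw [div_lt_iff₀ hκ0] at hR
              push_cast
              nlinarith
    refine ⟨⟨by omega, by omega, ?_⟩, ⟨by omega, by omega, ?_⟩⟩
    · exact len_rough (y := ((N - 1 : ℕ) : ℝ) ^ κ) (Real.one_le_rpow hX1 hκ0.le) (by omega)
        (hpow _ (by omega)) (fun p hp hd => hm.2.2 i p hp (Or.inr hd))
    · exact len_rough (y := ((N - 1 : ℕ) : ℝ) ^ κ) (Real.one_le_rpow hX1 hκ0.le) (by omega)
        (hpow _ (by omega)) (fun p hp hd => hm.2.2 i p hp (Or.inl hd))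
  · intro S hS
    refine le_trans ?_ (h2.2 S hS)
    rw [Nat.cast_le]
    apply Set.ncard_le_ncard
    · intro m hm
      refine ⟨hm.1, ?_⟩
      intro hAP
      apply hm.2
      obtain ⟨a, d, i1, i2, i3⟩ := hAP
      exact ⟨a, d, i1, i2.trans (pow_le_pow_left₀ hlog.le hlogle _), i3⟩
    · apply Set.Finite.subset (Set.finite_Icc 0 N)
      intro m hm
      have := (hS hm.1).2.1
      exact ⟨Nat.zero_le _, this.le⟩

end Pool.Agent.Results.MP_bf4c7f_nt.SymmetricAroundSquares
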